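import Pool.Agent.W532.Union2.Main

/-!
# MP_dbb15e_gt : Euclidean distortion of a union of two Euclidean-embeddable spaces

`𝒟 D_A D_B` is the least `D` such that every metric space which is the union of two subspaces
embedding into `ℓ₂` with distortion `D_A` and `D_B` embeds into `ℓ₂` with distortion `D`.  We prove

`𝒟 D_A D_B ≥ D_A * D_B / 1500` for all `D_A, D_B ≥ 1`.

Together with the known upper bound `7 D_A D_B + 2 (D_A + D_B)` this determines `𝒟` up to constant
factors; in particular `𝒟 D D` is of order `D ^ 2`.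

Idea of the construction.  Let `N` be a net in a discrete cube and let `X` be the set of all pairs
`(x, y)` of points of the cube at Hamming distance at most `η` one of which lies in `N`.  The
metric is `α (hd x x') + β (hd y y')` where `α`, `β` are multiples of the square root with slopes
increasing from `1` over `D_B` (resp. `D_A`) to `D_A D_B`.  If `x` lies in the net then it cannot
make small steps, and this part of `X` has Euclidean distortion of order `D_A`; similarly for `y`
and `D_B`.  In the union, however, both members can be moved in turn by small steps; by an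
Efron–Stein inequality and the inequality of short diagonals (applied to a random walk) a
`1`-Lipschitz map into a Hilbert space contracts most large distances by the factor `D_A D_B`.
-/

set_option autoImplicit false

open scoped ENNReal
open Pool.Agent.W532.Union2

namespace Pool.Agent.Results.MP_dbb15e_gt.ProductLowerBound

/-- The Hilbert space `ℓ₂` of square summable real sequences. -/
abbrev Ell2 : Type := lp (fun _ : ℕ => ℝ) 2

/-- The metric space `X` embeds into `ℓ₂` with distortion (at most) `D`: there are a map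
`f : X → ℓ₂` and a scale `s > 0` with `s d(x,y) ≤ ‖f x - f y‖ ≤ s D d(x,y)` for all `x, y`. -/
def Embeds (X : Type) [MetricSpace X] (D : ℝ) : Prop :=
  ∃ (f : X → Ell2) (s : ℝ), 0 < s ∧
    ∀ x y, s * dist x y ≤ ‖f x - f y‖ ∧ ‖f x - f y‖ ≤ s * D * dist x y

/-- `D` is admissible for `(D_A, D_B)`: every metric space which is the union of two subspaces `A`
and `B` that embed into `ℓ₂` with distortion `D_A` and `D_B` embeds into `ℓ₂` with distortion
`D`. -/
def Admissible (DA DB D : ℝ) : Prop :=
  ∀ (X : Type) [MetricSpace X] (A B : Set X), A ∪ B = Set.univ →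
    Embeds A DA → Embeds B DB → Embeds X D

/-- The least admissible `D ≥ 1`, as an element of `[0, ∞]`. -/
noncomputable def unionDistortion (DA DB : ℝ) : ℝ≥0∞ :=
  ⨅ (D : ℝ) (_ : 1 ≤ D) (_ : Admissible DA DB D), ENNReal.ofReal D

/-! ### Embedding finite dimensional spaces into `ℓ₂` -/

lemma exists_isometry (n : ℕ) : Nonempty (EuclideanSpace ℝ (Fin n) →ₗᵢ[ℝ] Ell2) := by
  let hb : HilbertBasis ℕ ℝ Ell2 := default
  let v : Fin n → Ell2 := fun i => hb (i : ℕ)
  have hv : Orthonormal ℝ v := hb.orthonormal.comp (fun i : Fin n => (i : ℕ)) Fin.val_injective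
  let c := EuclideanSpace.basisFun (Fin n) ℝ
  refine ⟨LinearMap.isometryOfOrthonormal (c.toBasis.constr ℝ v) (v := c.toBasis)
    (by rw [OrthonormalBasis.coe_toBasis]; exact c.orthonormal) ?_⟩
  have : (⇑(c.toBasis.constr ℝ v) ∘ ⇑c.toBasis) = v := by
    funext i
    simp only [Function.comp_apply]
    exact c.toBasis.constr_basis ℝ v i
  rw [this]
  exact hv

lemma embeds_of {X : Type} [MetricSpace X] {A : Set X} {K : ℝ} {n : ℕ} {D : ℝ}
    (f : X → EuclideanSpace ℝ (Fin n)) {c : ℝ} (hc : 0 < c) (hD : c * K = D)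
    (h : ∀ x ∈ A, ∀ y ∈ A, dist x y ≤ c * ‖f x - f y‖ ∧ ‖f x - f y‖ ≤ K * dist x y) :
    Embeds A D := by
  obtain ⟨e⟩ := exists_isometry n
  refine ⟨fun x => e (f x), 1 / c, by positivity, fun x y => ?_⟩
  have h1 := h x x.2 y y.2
  have h2 : ‖e (f x) - e (f y)‖ = ‖f x - f y‖ := by
    rw [← map_sub, e.norm_map]
  rw [h2]
  have hd : dist x y = dist (x : X) (y : X) := rfl
  rw [hd, ← hD]
  refine ⟨?_, ?_⟩
  · rw [one_div, inv_mul_le_iff₀ hc]
    exact h1.1
  · have : 1 / c * (c * K) = K := by field_simp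
    rw [this]
    exact h1.2

lemma embeds_subsingleton {X : Type} [MetricSpace X] {A : Set X} (hA : A.Subsingleton) (D : ℝ) :
    Embeds A D := by
  refine ⟨fun _ => 0, 1, one_pos, fun x y => ?_⟩
  have : x = y := Subtype.ext (hA x.2 y.2)
  rw [this]
  simp

/-! ### The discrete cube -/

section Cube

variable {n : ℕ}

lemma av_sg : av sg = 0 := by
  unfold av
  have : (∑ t : ZMod 2, sg t) = 0 := by
    rw [show (Finset.univ : Finset (ZMod 2)) = {0, 1} from by decide]
    rw [Finset.sum_pair (by decide)]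
    simp [sg]
  rw [this, zero_div]

lemma av_hd (p : Fin n → ZMod 2) : (av fun q => hd p q) = n / 2 := by
  have h1 : (av fun q => hd p q) = av fun z : Fin n → ZMod 2 => hd p (p + z) :=
    (av_equiv (Equiv.addLeft p) fun q => hd p q).symm
  rw [h1]
  have e : (fun z : Fin n → ZMod 2 => hd p (p + z)) = fun z => ∑ i, (1 - sg (z i)) / 2 := by
    funext z
    exact hd_eq_sum _ _
  rw [e, av_sum]
  have h2 : ∀ i : Fin n, (av fun z : Fin n → ZMod 2 => (1 - sg (z i)) / 2) = 1 / 2 := by
    intro i
    have e2 : (fun z : Fin n → ZMod 2 => (1 - sg (z i)) / 2)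
        = fun z => (1 / 2 : ℝ) * (1 - sg (z i)) := by
      funext z
      ring
    rw [e2, av_mul_left, av_sub, av_const, av_coord i sg, av_sg]
    norm_num
  simp only [h2]
  rw [Finset.sum_const, Finset.card_univ, Fintype.card_fin, nsmul_eq_mul]
  ring

lemma hd_update (p : Fin n → ZMod 2) (i : Fin n) (t : ZMod 2) :
    hd p (Function.update p i t) ≤ 1 := by
  classical
  unfold hd hammingDist
  have h1 : (Finset.univ.filter fun j => p j ≠ Function.update p i t j) ⊆ {i} := by
    intro j hj
    rw [Finset.mem_filter] at hj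
    rw [Finset.mem_singleton]
    by_contra hne
    exact hj.2 (by rw [Function.update_of_ne hne])
  have h2 := Finset.card_le_card h1
  rw [Finset.card_singleton] at h2
  exact_mod_cast h2

/-- The cube with the Hamming metric has Euclidean distortion at least `√n / 2`. -/
lemma cube_lower (hn : 0 < n) {H : Type} [NormedAddCommGroup H] [InnerProductSpace ℝ H]
    (f : (Fin n → ZMod 2) → H) {s D : ℝ} (hs : 0 < s)
    (hf : ∀ x y, s * hd x y ≤ ‖f x - f y‖ ∧ ‖f x - f y‖ ≤ s * D * hd x y) :
    (n : ℝ) ≤ 4 * D ^ 2 ∧ 0 ≤ D := by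
  have hn' : (0 : ℝ) < n := by exact_mod_cast hn
  have hD : 0 ≤ D := by
    have h1 := hf 0 1
    rw [hd_zero_one, Fintype.card_fin] at h1
    have h2 := h1.1.trans h1.2
    by_contra hneg
    push Not at hneg
    have h3 : s * D * n < 0 := mul_neg_of_neg_of_pos (mul_neg_of_pos_of_neg hs hneg) hn'
    have h4 : 0 < s * n := by positivity
    linarith
  refine ⟨?_, hD⟩
  have h1 : (av fun ω => av fun ω' => ‖f ω - f ω'‖ ^ 2) ≤ n * (s * D) ^ 2 := by
    refine es (by positivity) n f fun ω i t => ?_
    refine (hf _ _).2.trans ?_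
    have := hd_update ω i t
    nlinarith [mul_nonneg hs.le hD]
  have h2 : (av fun ω : Fin n → ZMod 2 => av fun ω' : Fin n → ZMod 2 =>
      s ^ 2 * (n * hd ω ω' - n ^ 2 / 4)) ≤ av fun ω => av fun ω' => ‖f ω - f ω'‖ ^ 2 := by
    refine av_mono fun ω => av_mono fun ω' => ?_
    have h3 := (hf ω ω').1
    have h4 : 0 ≤ s * hd ω ω' := mul_nonneg hs.le (hd_nonneg _ _)
    have h5 := pow_le_pow_left₀ h4 h3 2
    refine le_trans ?_ h5
    rw [mul_pow]
    refine mul_le_mul_of_nonneg_left ?_ (sq_nonneg s)
    nlinarith [sq_nonneg (hd ω ω' - n / 2)]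
  have h3 : (av fun ω : Fin n → ZMod 2 => av fun ω' : Fin n → ZMod 2 =>
      s ^ 2 * (n * hd ω ω' - n ^ 2 / 4)) = s ^ 2 * (n ^ 2 / 4) := by
    have : ∀ ω : Fin n → ZMod 2,
        (av fun ω' : Fin n → ZMod 2 => s ^ 2 * (n * hd ω ω' - n ^ 2 / 4)) =
        s ^ 2 * (n ^ 2 / 4) := by
      intro ω
      rw [av_mul_left, av_sub, av_mul_left, av_const, av_hd]
      ring
    simp only [this, av_const]
  rw [h3] at h2
  have h4 := h2.trans h1
  have h5 : (s ^ 2 * n) * (n / 4) ≤ (s ^ 2 * n) * D ^ 2 := by nlinarith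
  have h6 := le_of_mul_le_mul_left h5 (by positivity)
  linarith

end Cube

/-- The discrete cube as a metric space. -/
structure Q (n : ℕ) where
  /-- the point -/
  pt : Fin n → ZMod 2

noncomputable instance (n : ℕ) : MetricSpace (Q n) where
  dist p q := hd p.pt q.pt
  dist_self p := hd_self _
  dist_comm p q := hd_comm _ _
  dist_triangle p q r := hd_tri _ _ _
  eq_of_dist_eq_zero {p q} h := by
    have := eq_of_hd h
    cases p
    cases q
    simp only at this
    rw [this]

/-- A trivial lower bound: for every `D_A ≥ 1` there is a space of distortion at most `D_A` and at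
least `D_A / 3`. -/
lemma cube_example (DA : ℝ) (hA : 1 ≤ DA) :
    ∃ (X : Type) (_ : MetricSpace X) (A B : Set X), A ∪ B = Set.univ ∧ Embeds A DA ∧
      B.Subsingleton ∧ ∀ D, Embeds X D → DA ≤ 3 * D := by
  set n := ⌊DA ^ 2⌋₊ with hn
  have h1 : (1 : ℝ) ≤ DA ^ 2 := by nlinarith
  have hn1 : 1 ≤ n := Nat.le_floor (by exact_mod_cast h1)
  have hnle : (n : ℝ) ≤ DA ^ 2 := Nat.floor_le (by positivity)
  have hnlt : DA ^ 2 < n + 1 := Nat.lt_floor_add_one _
  have hn' : (1 : ℝ) ≤ n := by exact_mod_cast hn1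
  have hn0 : (0 : ℝ) < √n := Real.sqrt_pos.mpr (by linarith)
  refine ⟨Q n, inferInstance, Set.univ, ∅, by simp, ?_, Set.subsingleton_empty, ?_⟩
  · refine embeds_of (K := DA / √n) (c := √n) (fun p => iota p.pt) hn0 (by field_simp) ?_
    intro x _ y _
    have hd0 := hd_nonneg x.pt y.pt
    have h2 : ‖iota x.pt - iota y.pt‖ = √(hd x.pt y.pt) := by
      rw [← norm_iota, Real.sqrt_sq (norm_nonneg _)]
    have hdn : hd x.pt y.pt ≤ n := by
      unfold hd
      have := hammingDist_le_card_fintype (x := x.pt) (y := y.pt)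
      rw [Fintype.card_fin] at this
      exact_mod_cast this
    have hdd : dist x y = hd x.pt y.pt := rfl
    rw [h2, hdd]
    set u := hd x.pt y.pt with hu
    have hsu := Real.mul_self_sqrt hd0
    have hsu0 := Real.sqrt_nonneg u
    refine ⟨?_, ?_⟩
    · have h3 : √u ≤ √n := Real.sqrt_le_sqrt hdn
      calc u = √u * √u := hsu.symm
        _ ≤ √n * √u := mul_le_mul_of_nonneg_right h3 hsu0
    · have h4 : 1 ≤ DA / √n := by
        rw [one_le_div hn0, Real.sqrt_le_left (by linarith)]
        exact hnle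
      have h5 : √u ≤ u := by
        rcases eq_or_ne x.pt y.pt with h | h
        · have : u = 0 := by rw [hu, h, hd_self]
          rw [this]
          simp
        · have h6 : 1 ≤ u := one_le_hd h
          rw [Real.sqrt_le_left (by linarith)]
          nlinarith
      nlinarith
  · rintro D ⟨f, s, hs, hf⟩
    obtain ⟨h2, h3⟩ := cube_lower (n := n) (by omega) (fun p => f ⟨p⟩) hs
      (fun x y => hf ⟨x⟩ ⟨y⟩)
    refine le_of_sq_le_sq ?_ (by positivity)
    nlinarith

lemma Admissible.symm {DA DB D : ℝ} (h : Admissible DA DB D) : Admissible DB DA D := by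
  intro X _ A B hAB hA hB
  exact h X B A (by rw [Set.union_comm]; exact hAB) hB hA

/-- The lower bound for admissible numbers. -/
lemma lower {DA DB : ℝ} (hA : 1 ≤ DA) (hB : 1 ≤ DB) {D : ℝ} (h : Admissible DA DB D) :
    DA * DB ≤ 1500 * D := by
  have small : ∀ DA DB : ℝ, 1 ≤ DA → 1 ≤ DB → DB < 5 → Admissible DA DB D →
      DA * DB ≤ 1500 * D := by
    intro DA DB hA hB hB5 h
    obtain ⟨X, _, A, B, hAB, hEA, hB1, hlow⟩ := cube_example DA hA
    have h1 := hlow D (h X A B hAB hEA (embeds_subsingleton hB1 DB))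
    nlinarith
  rcases lt_or_ge DB 5 with h5 | h5
  · exact small DA DB hA hB h5 h
  rcases lt_or_ge DA 5 with h6 | h6
  · have := small DB DA hB hA h6 h.symm
    linarith
  obtain ⟨X, _, _, A, B, hAB, ⟨n, f, hf⟩, ⟨m, g, hg⟩, hlow⟩ :=
    config.{0} (DA / 5) (DB / 5) (by linarith) (by linarith)
  obtain ⟨F, s, hs, hF⟩ := h X A B hAB
    (embeds_of f (c := 5) (by norm_num) (by ring) hf)
    (embeds_of g (c := 5) (by norm_num) (by ring) hg)
  have h1 := hlow Ell2 inferInstance inferInstance F s D hs hF
  linarith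

/-- **Euclidean distortion of a union of two spaces.** For all `D_A, D_B ≥ 1`,
`𝒟(D_A, D_B) ≥ D_A D_B / 1500`. -/
theorem result (DA DB : ℝ) (hA : 1 ≤ DA) (hB : 1 ≤ DB) :
    ENNReal.ofReal (DA * DB / 1500) ≤ unionDistortion DA DB := by
  unfold unionDistortion
  refine le_iInf fun D => le_iInf fun _ => le_iInf fun h => ?_
  refine ENNReal.ofReal_le_ofReal ?_
  have := lower hA hB h
  linarith

end Pool.Agent.Results.MP_dbb15e_gt.ProductLowerBound
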